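import Pool.Agent.Q273.QP.Stm

/-!
# Project QP (helper273), job PIG: polynomials with leading coefficient a power of two and small value
-/

set_option autoImplicit false

namespace Pool.Agent.Q285.QP

open Q273.QP

/-- rational approximations with large denominators -/
lemma exists_good (ξ : ℝ) (hξ : Irrational ξ) (M : ℕ) : ∃ r : ℚ, M ≤ r.den ∧
    |ξ - r| < 1 / (r.den : ℝ) ^ 2 := by
  by_contra hcon
  push Not at hcon
  have hinf := Real.infinite_rat_abs_sub_lt_one_div_den_sq_of_irrational hξ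
  apply hinf
  -- finitely many rational numbers with bounded denominator in a bounded interval
  have hsub : {q : ℚ | |ξ - q| < 1 / (q.den : ℝ) ^ 2} ⊆
      (fun z : ℤ × ℕ => (z.1 : ℚ) / z.2) ''
        ((Set.Icc (-(⌈(|ξ| + 1) * M⌉)) ⌈(|ξ| + 1) * M⌉) ×ˢ (Set.Iic M)) := by
    intro q hq
    rw [Set.mem_ofPred_eq] at hq
    have h1 : q.den < M := by
      by_contra h2
      exact absurd hq (not_lt.2 (hcon q (not_lt.1 h2)))
    refine ⟨(q.num, q.den), ⟨?_, h1.le⟩, Rat.num_div_den q⟩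
    have hd : (1 : ℝ) ≤ q.den := by exact_mod_cast q.den_pos
    have h3 : |(q : ℝ)| ≤ |ξ| + 1 := by
      have h4 : 1 / (q.den : ℝ) ^ 2 ≤ 1 := by
        rw [div_le_one (by positivity)]
        nlinarith
      have h5 : |(q : ℝ)| ≤ |ξ| + |ξ - q| := by
        have := abs_sub_abs_le_abs_sub (q : ℝ) ξ
        rw [abs_sub_comm] at this
        linarith
      linarith
    have h4 : |(q.num : ℝ)| ≤ (|ξ| + 1) * M := by
      have h5 : (q.num : ℝ) = (q : ℝ) * q.den := by
        have h6 : (q : ℝ) = (q.num : ℝ) / q.den := by exact_mod_cast (Rat.num_div_den q).symm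
        rw [h6]
        field_simp
      rw [h5, abs_mul, Nat.abs_cast]
      have h7 : (q.den : ℝ) ≤ M := by exact_mod_cast h1.le
      exact mul_le_mul h3 h7 (by positivity) (by positivity)
    have h5 := abs_le.1 h4
    rw [Set.mem_Icc]
    constructor
    · have : -((⌈(|ξ| + 1) * M⌉ : ℤ) : ℝ) ≤ q.num := by
        have := Int.le_ceil ((|ξ| + 1) * M)
        linarith
      exact_mod_cast this
    · have : (q.num : ℝ) ≤ ((⌈(|ξ| + 1) * M⌉ : ℤ) : ℝ) := by
        have := Int.le_ceil ((|ξ| + 1) * M)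
        linarith
      exact_mod_cast this
  exact (((Set.finite_Icc _ _).prod (Set.finite_Iic M)).image _).subset hsub

theorem pig : S_PIG := by
  intro ξ hξ
  refine ⟨2 * |ξ| + ξ ^ 2 + 4, by positivity, fun N => ?_⟩
  obtain ⟨r, hr1, hr2⟩ := exists_good ξ hξ (2 ^ N)
  obtain ⟨q, hq⟩ : ∃ q : ℕ, q = r.den := ⟨_, rfl⟩
  rw [← hq] at hr1 hr2
  have hq0 : q ≠ 0 := by rw [hq]; exact r.den_nz
  have hqp : (0 : ℝ) < q := by exact_mod_cast Nat.pos_of_ne_zero hq0
  obtain ⟨k, hk⟩ : ∃ k : ℕ, k = Nat.log 2 q := ⟨_, rfl⟩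
  have hk1 : 2 ^ k ≤ q := by rw [hk]; exact Nat.pow_log_le_self 2 hq0
  have hk2 : q < 2 ^ (k + 1) := by rw [hk]; exact Nat.lt_pow_succ_log_self (by norm_num) q
  have hNk : N ≤ k := by
    by_contra hcon
    push Not at hcon
    have : 2 ^ (k + 1) ≤ 2 ^ N := Nat.pow_le_pow_right (by norm_num) hcon
    omega
  have hk1' : (2 : ℝ) ^ k ≤ q := by exact_mod_cast hk1
  have hk2' : (q : ℝ) < 2 * 2 ^ k := by
    have : (q : ℝ) < 2 ^ (k + 1) := by exact_mod_cast hk2
    rw [pow_succ] at this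
    linarith
  have h2k : (1 : ℝ) ≤ 2 ^ k := one_le_pow₀ (by norm_num)
  -- the target
  obtain ⟨α, hα⟩ : ∃ α : ℝ, α = -(2 ^ k * ξ ^ 2) := ⟨_, rfl⟩
  obtain ⟨m, hm⟩ : ∃ m : ℤ, m = round (α * q) := ⟨_, rfl⟩
  have hm1 : |α * q - m| ≤ 1 / 2 := by rw [hm]; exact abs_sub_round _
  -- the congruence
  have hcop : IsCoprime r.num (q : ℤ) := by
    rw [hq, Int.isCoprime_iff_gcd_eq_one]
    exact r.reduced
  obtain ⟨x, y, hxy⟩ := hcop
  obtain ⟨b, hb⟩ : ∃ b : ℤ, b = (m * x) % q := ⟨_, rfl⟩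
  have hqz : (q : ℤ) ≠ 0 := by exact_mod_cast hq0
  have hb0 : 0 ≤ b := by rw [hb]; exact Int.emod_nonneg _ hqz
  have hb1 : b < q := by
    rw [hb]
    exact Int.emod_lt_of_pos _ (by exact_mod_cast Nat.pos_of_ne_zero hq0)
  obtain ⟨c, hc⟩ : ∃ c : ℤ, b * r.num + c * q = m := by
    refine ⟨m * y + (m * x / q) * r.num, ?_⟩
    have h1 : b = m * x - q * (m * x / q) := by
      rw [hb]
      have := Int.emod_add_mul_ediv (m * x) q
      linarith
    rw [h1]
    linear_combination m * hxy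
  refine ⟨k, b, c, hNk, ?_, ?_, ?_⟩
  all_goals
    have hbR0 : (0 : ℝ) ≤ b := by exact_mod_cast hb0
    have hbR1 : (b : ℝ) < q := by exact_mod_cast hb1
    have hbR2 : |(b : ℝ)| ≤ 2 * 2 ^ k := by rw [abs_of_nonneg hbR0]; linarith
    have herr : |(b : ℝ) * ξ + c - α| ≤ 2 / 2 ^ k := by
      have hrr : (r : ℝ) = (r.num : ℝ) / q := by
        rw [hq]
        exact_mod_cast (Rat.num_div_den r).symm
      have hcR : (b : ℝ) * r.num + c * q = m := by exact_mod_cast hc
      have e1 : (b : ℝ) * ξ + c - α = b * (ξ - r) + (m - α * q) / q := by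
        rw [hrr, ← hcR]
        field_simp
        ring
      have e2 : |(b : ℝ) * (ξ - r)| ≤ 1 / q := by
        rw [abs_mul, abs_of_nonneg hbR0]
        calc (b : ℝ) * |ξ - r| ≤ q * (1 / (q : ℝ) ^ 2) :=
              mul_le_mul hbR1.le hr2.le (abs_nonneg _) hqp.le
          _ = 1 / q := by field_simp
      have e3 : |((m : ℝ) - α * q) / q| ≤ (1 / 2) / q := by
        rw [abs_div, abs_of_pos hqp, abs_sub_comm]
        exact div_le_div_of_nonneg_right hm1 hqp.le
      rw [e1]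
      refine (abs_add_le _ _).trans ?_
      have e4 : 1 / (q : ℝ) + 1 / 2 / q ≤ 2 / 2 ^ k := by
        have : 1 / (q : ℝ) + 1 / 2 / q = (3 / 2) / q := by ring
        rw [this]
        calc (3 / 2 : ℝ) / q ≤ (3 / 2) / 2 ^ k :=
              div_le_div_of_nonneg_left (by norm_num) (by positivity) hk1'
          _ ≤ 2 / 2 ^ k := div_le_div_of_nonneg_right (by norm_num) (by positivity)
      linarith
  · refine hbR2.trans (mul_le_mul_of_nonneg_right ?_ (by positivity))
    nlinarith [abs_nonneg ξ, sq_nonneg ξ]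
  · have h1 : |(c : ℝ)| ≤ |(b : ℝ) * ξ + c - α| + |(b : ℝ) * ξ| + |α| := by
      have e : (c : ℝ) = ((b : ℝ) * ξ + c - α) - b * ξ + α := by ring
      calc |(c : ℝ)| = |((b : ℝ) * ξ + c - α) - b * ξ + α| := by rw [← e]
        _ ≤ |((b : ℝ) * ξ + c - α) - b * ξ| + |α| := abs_add_le _ _
        _ ≤ _ := by
          have := abs_sub ((b : ℝ) * ξ + c - α) (b * ξ)
          linarith
    have h2 : |(b : ℝ) * ξ| ≤ 2 * 2 ^ k * |ξ| := by
      rw [abs_mul]
      exact mul_le_mul_of_nonneg_right hbR2 (abs_nonneg _)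
    have h3 : |α| = 2 ^ k * ξ ^ 2 := by
      rw [hα, abs_neg, abs_of_nonneg (by positivity)]
    have h4 : (2 : ℝ) / 2 ^ k ≤ 2 * 2 ^ k := by
      rw [div_le_iff₀ (by positivity)]
      nlinarith
    rw [h3] at h1
    nlinarith [abs_nonneg ξ, sq_nonneg ξ]
  · unfold vR
    have e : ((2 ^ k : ℤ) : ℝ) * ξ ^ 2 + b * ξ + c = (b : ℝ) * ξ + c - α := by
      rw [hα]
      push_cast
      ring
    rw [e]
    refine herr.trans (div_le_div_of_nonneg_right ?_ (by positivity))
    nlinarith [abs_nonneg ξ, sq_nonneg ξ]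

end Pool.Agent.Q285.QP
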