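import Pool.Agent.Q273.QP.Stm

/-!
# Project QP (helper273), jobs REAL, ONE, OVER: the real place
-/

set_option autoImplicit false

open MeasureTheory

namespace Pool.Agent.Q285.QP

open Q273.QP

theorem real_ : S_REAL := by
  intro D T hD hT
  have hsD : 0 < Real.sqrt |D| := Real.sqrt_pos.2 (abs_pos.2 hD)
  have hsq : Real.sqrt |D| ^ 2 = |D| := Real.sq_sqrt (abs_nonneg D)
  obtain ⟨s, hs⟩ : ∃ s : ℝ, s = Real.sqrt |D| := ⟨_, rfl⟩
  rw [← hs] at hsD hsq ⊢
  rcases lt_or_gt_of_ne hD with h | h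
  · -- negative
    have hsub : {y : ℝ | |y ^ 2 - D| ≤ T} ⊆ Metric.closedBall 0 (T / (2 * s)) := by
      intro y hy
      rw [Set.mem_ofPred_eq] at hy
      rw [Metric.mem_closedBall, Real.dist_eq, sub_zero, le_div_iff₀ (by positivity)]
      have h1 := (abs_le.1 hy).2
      rw [abs_of_neg h] at hsq
      nlinarith [sq_nonneg (|y| - s), sq_abs y]
    refine (measure_mono hsub).trans ?_
    rw [Real.volume_closedBall]
    apply ENNReal.ofReal_le_ofReal
    have : 2 * (T / (2 * s)) = T / s := by field_simp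
    rw [this]
    apply div_le_div_of_nonneg_right _ hsD.le
    linarith
  · -- positive
    have hsub : {y : ℝ | |y ^ 2 - D| ≤ T} ⊆ Metric.closedBall s (T / s) ∪
        Metric.closedBall (-s) (T / s) := by
      intro y hy
      rw [Set.mem_ofPred_eq] at hy
      rw [abs_of_pos h] at hsq
      have e : y ^ 2 - D = (y - s) * (y + s) := by rw [← hsq]; ring
      rw [e, abs_mul] at hy
      rcases le_total 0 y with h0 | h0
      · left
        rw [Metric.mem_closedBall, Real.dist_eq, le_div_iff₀ hsD]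
        have h1 : s ≤ |y + s| := by
          rw [abs_of_nonneg (by linarith)]
          linarith
        calc |y - s| * s ≤ |y - s| * |y + s| := mul_le_mul_of_nonneg_left h1 (abs_nonneg _)
          _ ≤ T := hy
      · right
        rw [Metric.mem_closedBall, Real.dist_eq, le_div_iff₀ hsD, sub_neg_eq_add]
        have h1 : s ≤ |y - s| := by
          rw [abs_of_nonpos (by linarith)]
          linarith
        calc |y + s| * s ≤ |y + s| * |y - s| := mul_le_mul_of_nonneg_left h1 (abs_nonneg _)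
          _ ≤ T := by rw [mul_comm]; exact hy
    refine (measure_mono hsub).trans ((measure_union_le _ _).trans ?_)
    rw [Real.volume_closedBall, Real.volume_closedBall, ← ENNReal.ofReal_add (by positivity)
      (by positivity)]
    apply ENNReal.ofReal_le_ofReal
    apply le_of_eq
    ring

/-- completing the square -/
lemma square_eq (a b c : ℤ) (ξ : ℝ) : (4 * |(a : ℝ)|) * vR a b c ξ =
    |(2 * a * ξ + b) ^ 2 - (dsc a b c : ℝ)| := by
  unfold vR dsc
  have e : (2 * (a : ℝ) * ξ + b) ^ 2 - ((b ^ 2 - 4 * a * c : ℤ) : ℝ) =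
      (4 * a) * ((a : ℝ) * ξ ^ 2 + b * ξ + c) := by
    push_cast
    ring
  rw [e, abs_mul, abs_mul]
  norm_num

/-- measure of the preimage under an affine map -/
lemma affine_vol {a : ℤ} (ha : a ≠ 0) (b : ℝ) (S : Set ℝ) :
    volume {ξ : ℝ | 2 * (a : ℝ) * ξ + b ∈ S} = ENNReal.ofReal (1 / (2 * |(a : ℝ)|)) * volume S := by
  have haR : (a : ℝ) ≠ 0 := by exact_mod_cast ha
  have h1 : {ξ : ℝ | 2 * (a : ℝ) * ξ + b ∈ S} = (fun ξ => (2 * (a : ℝ)) * ξ) ⁻¹'
      ((fun y => y + b) ⁻¹' S) := rfl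
  rw [h1, Real.volume_preimage_mul_left (mul_ne_zero two_ne_zero haR), measure_preimage_add_right]
  congr 2
  rw [abs_inv, abs_mul, abs_two, one_div]

theorem one : S_ONE := by
  intro a b c K ha hD hK
  have haR : 0 < |(a : ℝ)| := abs_pos.2 (by exact_mod_cast ha)
  have hDR : (dsc a b c : ℝ) ≠ 0 := by exact_mod_cast hD
  have h1 : {ξ : ℝ | vR a b c ξ ≤ K} =
      {ξ : ℝ | 2 * (a : ℝ) * ξ + b ∈ {y : ℝ | |y ^ 2 - (dsc a b c : ℝ)| ≤ 4 * |(a : ℝ)| * K}} := by
    ext ξ
    rw [Set.mem_ofPred_eq, Set.mem_ofPred_eq, Set.mem_ofPred_eq, ← square_eq]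
    rw [mul_le_mul_iff_right₀ (by positivity)]
  rw [h1, affine_vol ha]
  have h2 := real_ (dsc a b c : ℝ) (4 * |(a : ℝ)| * K) hDR (by positivity)
  refine (mul_le_mul_right h2 _).trans ?_
  rw [← ENNReal.ofReal_mul (by positivity)]
  apply ENNReal.ofReal_le_ofReal
  apply le_of_eq
  field_simp
  ring

theorem over_ : S_OVER := by
  classical
  intro a D B c R K N ha hD hR hK hN hB hcount
  have haR : 0 < |(a : ℝ)| := abs_pos.2 (by exact_mod_cast ha)
  have hDR : (D : ℝ) ≠ 0 := by exact_mod_cast hD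
  obtain ⟨Y, hY⟩ : ∃ Y : Set ℝ, Y = {y : ℝ | |y ^ 2 - (D : ℝ)| ≤ 4 * |(a : ℝ)| * K} := ⟨_, rfl⟩
  have hYm : MeasurableSet Y := by
    rw [hY]
    apply measurableSet_le
    · fun_prop
    · fun_prop
  have hIm : ∀ b : ℤ, MeasurableSet {y : ℝ | |y - b| ≤ 2 * |(a : ℝ)| * R} := by
    intro b
    apply measurableSet_le
    · fun_prop
    · fun_prop
  have h1 : ∀ b ∈ B, volume {ξ : ℝ | |ξ| ≤ R ∧ vR a b (c b) ξ ≤ K} =
      ENNReal.ofReal (1 / (2 * |(a : ℝ)|)) *
        volume (Y ∩ {y : ℝ | |y - b| ≤ 2 * |(a : ℝ)| * R}) := by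
    intro b hb
    rw [← affine_vol ha (b : ℝ)]
    congr 1
    ext ξ
    rw [Set.mem_ofPred_eq, Set.mem_ofPred_eq, Set.mem_inter_iff, hY, Set.mem_ofPred_eq,
      Set.mem_ofPred_eq, ← hB b hb, ← square_eq, mul_le_mul_iff_right₀ (by positivity), and_comm]
    have e : |2 * (a : ℝ) * ξ + b - b| = 2 * |(a : ℝ)| * |ξ| := by
      rw [add_sub_cancel_right, abs_mul, abs_mul, abs_two]
    rw [e, mul_le_mul_iff_right₀ (by positivity)]
  rw [Finset.sum_congr rfl h1, ← Finset.mul_sum]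
  have h2 : ∑ b ∈ B, volume (Y ∩ {y : ℝ | |y - b| ≤ 2 * |(a : ℝ)| * R}) ≤
      ENNReal.ofReal N * volume Y := by
    have e1 : ∀ b : ℤ, volume (Y ∩ {y : ℝ | |y - b| ≤ 2 * |(a : ℝ)| * R}) =
        ∫⁻ y in Y, {y : ℝ | |y - b| ≤ 2 * |(a : ℝ)| * R}.indicator 1 y := by
      intro b
      rw [lintegral_indicator_one (hIm b), Measure.restrict_apply (hIm b), Set.inter_comm]
    rw [Finset.sum_congr rfl fun b _ => e1 b, ← lintegral_finsetSum' _ fun b _ =>
      (measurable_one.indicator (hIm b)).aemeasurable]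
    calc ∫⁻ y in Y, ∑ b ∈ B, {y : ℝ | |y - b| ≤ 2 * |(a : ℝ)| * R}.indicator 1 y ≤
          ∫⁻ _ in Y, ENNReal.ofReal N := by
          apply lintegral_mono
          intro y
          have e2 : ∑ b ∈ B, {y : ℝ | |y - b| ≤ 2 * |(a : ℝ)| * R}.indicator (1 : ℝ → ENNReal) y =
              (((B.filter fun b : ℤ => |y - b| ≤ 2 * |(a : ℝ)| * R).card : ℕ) : ENNReal) := by
            rw [Finset.card_filter, Nat.cast_sum]
            apply Finset.sum_congr rfl
            intro b _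
            by_cases hb : |y - b| ≤ 2 * |(a : ℝ)| * R
            · rw [Set.indicator_of_mem (show y ∈ {y : ℝ | |y - b| ≤ 2 * |(a : ℝ)| * R} from hb),
                if_pos hb, Pi.one_apply, Nat.cast_one]
            · rw [Set.indicator_of_notMem (show y ∉ {y : ℝ | |y - b| ≤ 2 * |(a : ℝ)| * R} from hb),
                if_neg hb, Nat.cast_zero]
          simp only [e2]
          rw [← ENNReal.ofReal_natCast]
          exact ENNReal.ofReal_le_ofReal (hcount y)
      _ = ENNReal.ofReal N * volume Y := by rw [setLIntegral_const]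
  have h3 := real_ (D : ℝ) (4 * |(a : ℝ)| * K) hDR (by positivity)
  rw [← hY] at h3
  calc ENNReal.ofReal (1 / (2 * |(a : ℝ)|)) *
        ∑ b ∈ B, volume (Y ∩ {y : ℝ | |y - b| ≤ 2 * |(a : ℝ)| * R}) ≤
        ENNReal.ofReal (1 / (2 * |(a : ℝ)|)) * (ENNReal.ofReal N *
          ENNReal.ofReal (4 * (4 * |(a : ℝ)| * K) / Real.sqrt |(D : ℝ)|)) := by
        gcongr
        exact h2.trans (mul_le_mul_right h3 _)
    _ = ENNReal.ofReal (8 * N * K / Real.sqrt |(D : ℝ)|) := by
        rw [← ENNReal.ofReal_mul hN, ← ENNReal.ofReal_mul (by positivity)]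
        congr 1
        have : Real.sqrt |(D : ℝ)| ≠ 0 := (Real.sqrt_pos.2 (abs_pos.2 hDR)).ne'
        field_simp
        ring

end Pool.Agent.Q285.QP
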